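import Mathlib

/-!
# Project PP (MP_fc6b1e_nt), part A3, packet N_CHL: the real analysis

An abstract system: norms `N i ≥ 1` with `a x ≤ #{i : N i ≤ x} ≤ b x`, weights `L d` at `m d ≥ 1` with
Chebyshev's upper bound, the convolution identity, and the almost homogeneity of
`Θ(Z) = ∑ exp(-N i/Z)`; the conclusion is Chebyshev's lower bound for the weights.
-/

set_option autoImplicit false

namespace Pool.Agent.Helper93.PPS

open Real

/-- Partial summation with a potential. -/
theorem pot {D : Type} (L m : D → ℝ) (hL : ∀ d, 0 ≤ L d) (hm : ∀ d, 0 < m d) (b : ℝ) (hb : 0 < b)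
    (f Ψ : ℝ → ℝ) (hf : ∀ u v, 0 < u → u ≤ v → f v ≤ f u)
    (hΨ : ∀ t t', 0 ≤ t → t < t' → (t' - t) * f (t' / b) ≤ Ψ t' - Ψ t)
    (S : Finset D) (hS : ∀ U ⊆ S, ∀ x, (∀ d ∈ U, m d ≤ x) → ∑ d ∈ U, L d ≤ b * x ∨ x ≤ 0) :
    ∑ d ∈ S, L d * f (m d) ≤ Ψ (∑ d ∈ S, L d) - Ψ 0 := by
  classical
  revert hS
  refine Finset.induction_on_max_value m S ?_ ?_
  · intro _
    simp
  · intro d s hd hmax ih hS
    have h1 := ih (fun U hU => hS U (hU.trans (Finset.subset_insert _ _)))
    rw [Finset.sum_insert hd, Finset.sum_insert hd]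
    have h2 : ∑ e ∈ insert d s, L e ≤ b * m d := by
      rcases hS (insert d s) le_rfl (m d) (by
        intro e he
        rcases Finset.mem_insert.1 he with h | h
        · rw [h]
        · exact hmax e h) with h | h
      · exact h
      · exact absurd (hm d) (not_lt.2 h)
    rw [Finset.sum_insert hd] at h2
    have h0 : 0 ≤ ∑ e ∈ s, L e := Finset.sum_nonneg fun e _ => hL e
    rcases (hL d).eq_or_lt with h3 | h3
    · rw [← h3, zero_mul, zero_add, zero_add]
      exact h1
    · have h4 := hΨ (∑ e ∈ s, L e) (L d + ∑ e ∈ s, L e) h0 (by linarith)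
      have h5 : f (m d) ≤ f ((L d + ∑ e ∈ s, L e) / b) := by
        refine hf _ _ (by positivity) ?_
        rw [div_le_iff₀ hb]
        linarith
      have h6 : L d * f (m d) ≤ L d * f ((L d + ∑ e ∈ s, L e) / b) :=
        mul_le_mul_of_nonneg_left h5 h3.le
      have h7 : (L d + ∑ e ∈ s, L e - ∑ e ∈ s, L e) = L d := by ring
      rw [h7] at h4
      linarith

/-- The majorant. -/
noncomputable def F (y : ℝ) : ℝ := 1 / (√y * (1 + √y) ^ 2)

theorem F_anti (u v : ℝ) (hu : 0 < u) (huv : u ≤ v) : F v ≤ F u := by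
  unfold F
  have h1 : 0 < √u := Real.sqrt_pos.2 hu
  have h2 : √u ≤ √v := Real.sqrt_le_sqrt huv
  refine one_div_le_one_div_of_le (by positivity) ?_
  gcongr

theorem F_pos {y : ℝ} (hy : 0 < y) : 0 < F y := by
  unfold F
  have h1 : 0 < √y := Real.sqrt_pos.2 hy
  positivity

theorem F_pot (h : ℝ) (hh : 0 < h) (t t' : ℝ) (ht : 0 ≤ t) (htt : t < t') :
    (t' - t) * F (t' / h) ≤ (-(2 * h / (1 + √(t' / h)))) - (-(2 * h / (1 + √(t / h)))) := by
  have ht' : 0 < t' := lt_of_le_of_lt ht htt
  set u := √(t / h) with hu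
  set v := √(t' / h) with hv
  have hu2 : u ^ 2 = t / h := Real.sq_sqrt (by positivity)
  have hv2 : v ^ 2 = t' / h := Real.sq_sqrt (by positivity)
  have hu0 : 0 ≤ u := Real.sqrt_nonneg _
  have hv0 : 0 < v := Real.sqrt_pos.2 (by positivity)
  have huv : u ≤ v := Real.sqrt_le_sqrt (by gcongr)
  have ht1 : t = h * u ^ 2 := by rw [hu2]; field_simp
  have ht2 : t' = h * v ^ 2 := by rw [hv2]; field_simp
  unfold F
  rw [← hv]
  have e1 : (-(2 * h / (1 + v))) - (-(2 * h / (1 + u))) = 2 * h * (v - u) / ((1 + u) * (1 + v)) := by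
    field_simp
    ring
  rw [e1, ht1, ht2]
  have e2 : (h * v ^ 2 - h * u ^ 2) * (1 / (v * (1 + v) ^ 2)) =
      h * (v - u) * (v + u) / (v * (1 + v) ^ 2) := by
    field_simp
    ring
  rw [e2, div_le_div_iff₀ (by positivity) (by positivity)]
  have h1 : 0 ≤ h * (v - u) := mul_nonneg hh.le (by linarith)
  have h2 : (v + u) * ((1 + u) * (1 + v)) ≤ 2 * (v * (1 + v) ^ 2) := by
    have h3 : (v + u) ≤ 2 * v := by linarith
    have h4 : (1 + u) * (1 + v) ≤ (1 + v) ^ 2 := by nlinarith
    calc (v + u) * ((1 + u) * (1 + v)) ≤ (2 * v) * ((1 + v) ^ 2) := by gcongr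
      _ = _ := by ring
  calc h * (v - u) * (v + u) * ((1 + u) * (1 + v)) = h * (v - u) * ((v + u) * ((1 + u) * (1 + v))) := by ring
    _ ≤ h * (v - u) * (2 * (v * (1 + v) ^ 2)) := mul_le_mul_of_nonneg_left h2 h1
    _ = _ := by ring

theorem sq_le_exp (y : ℝ) (hy : 0 ≤ y) : (1 + y) ^ 2 ≤ 2 * exp y := by
  have := Real.quadratic_le_exp_of_nonneg hy
  nlinarith

theorem exp_le_F {y : ℝ} (hy : 0 < y) : exp (-y) ≤ 2 * F y := by
  unfold F
  set v := √y with hv
  have hv0 : 0 < v := Real.sqrt_pos.2 hy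
  have hv2 : v ^ 2 = y := Real.sq_sqrt hy.le
  rw [Real.exp_neg, mul_one_div, inv_eq_one_div, div_le_div_iff₀ (exp_pos _) (by positivity)]
  have h1 := sq_le_exp y hy.le
  have h2 : v ≤ (1 + y) / 2 := by nlinarith [sq_nonneg (v - 1)]
  have h3 : (1 + v) ^ 2 ≤ 2 * (1 + y) := by nlinarith [sq_nonneg (v - 1)]
  calc 1 * (v * (1 + v) ^ 2) ≤ 1 * ((1 + y) / 2 * (2 * (1 + y))) := by gcongr
    _ = (1 + y) ^ 2 := by ring
    _ ≤ 2 * exp y := h1

theorem log_exp_le_F {y : ℝ} (hy : 0 < y) : |log y| * exp (-y) ≤ 8 * F y := by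
  unfold F
  set v := √y with hv
  have hv0 : 0 < v := Real.sqrt_pos.2 hy
  have hv2 : v ^ 2 = y := Real.sq_sqrt hy.le
  have h0 : |log y| ≤ 2 * (v + 1 / v) := by
    rw [← hv2, Real.log_pow, abs_mul]
    have h1 : |log v| ≤ v + 1 / v := by
      rw [abs_le]
      have h2 := Real.log_le_sub_one_of_pos hv0
      have h3 := Real.log_le_sub_one_of_pos (show 0 < 1 / v by positivity)
      rw [Real.log_div one_ne_zero hv0.ne', Real.log_one] at h3
      have h4 : 0 < 1 / v := by positivity
      constructor <;> linarith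
    have h2 : |((2 : ℕ) : ℝ)| = 2 := by norm_num
    rw [h2]
    linarith
  rw [Real.exp_neg, mul_one_div, ← div_eq_mul_inv, div_le_div_iff₀ (exp_pos _) (by positivity)]
  have h1 := sq_le_exp y hy.le
  have h3 : (1 + v) ^ 2 ≤ 2 * (1 + y) := by nlinarith [sq_nonneg (v - 1)]
  calc |log y| * (v * (1 + v) ^ 2) ≤ 2 * (v + 1 / v) * (v * (1 + v) ^ 2) := by gcongr
    _ = 2 * (v ^ 2 + 1) * (1 + v) ^ 2 := by field_simp
    _ ≤ 2 * (v ^ 2 + 1) * (2 * (1 + y)) := by gcongr
    _ = 4 * (1 + y) ^ 2 := by rw [hv2]; ring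
    _ ≤ 8 * exp y := by linarith

section

variable {ι : Type} (N : ι → ℝ)

/-- `Θ(Z)`. -/
noncomputable def Th (Z : ℝ) : ℝ := ∑' i, exp (-N i / Z)

variable {N} (hN : ∀ i, 1 ≤ N i) {b : ℝ} (hb : 0 < b)
  (hcount : ∀ (S : Finset ι) (x : ℝ), 0 < x → (∀ i ∈ S, N i ≤ x) → (S.card : ℝ) ≤ b * x)

include hN hb hcount

theorem F_sum (x : ℝ) (hx : 0 < x) (S : Finset ι) : ∑ i ∈ S, F (N i / x) ≤ 2 * b * x := by
  have h1 := pot (fun _ : ι => (1 : ℝ)) (fun i => N i / x) (fun _ => zero_le_one)
    (fun i => div_pos (by linarith [hN i]) hx) (b * x) (by positivity) F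
    (fun t => -(2 * (b * x) / (1 + √(t / (b * x))))) F_anti
    (fun t t' ht htt => F_pot (b * x) (by positivity) t t' ht htt) S (by
      intro U _ y hy
      rcases le_or_gt y 0 with h | h
      · exact Or.inr h
      · left
        have h2 := hcount U (y * x) (by positivity) (fun i hi => by
          have := hy i hi
          rwa [div_le_iff₀ hx] at this)
        rw [Finset.sum_const, nsmul_eq_mul, mul_one]
        linarith)
  simp only [one_mul, zero_div, Real.sqrt_zero, add_zero, div_one] at h1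
  have h3 : 0 ≤ 2 * (b * x) / (1 + √((∑ d ∈ S, (1 : ℝ)) / (b * x))) := by positivity
  linarith

theorem F_summable (x : ℝ) (hx : 0 < x) : Summable fun i => F (N i / x) :=
  summable_of_sum_le (fun i => (F_pos (div_pos (by linarith [hN i]) hx)).le)
    (F_sum hN hb hcount x hx)

theorem F_tsum (x : ℝ) (hx : 0 < x) : ∑' i, F (N i / x) ≤ 2 * b * x :=
  (F_summable hN hb hcount x hx).tsum_le_of_sum_le (F_sum hN hb hcount x hx)

theorem Th_summable (x : ℝ) (hx : 0 < x) : Summable fun i => exp (-N i / x) := by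
  refine Summable.of_nonneg_of_le (fun i => (exp_pos _).le) (fun i => ?_)
    ((F_summable hN hb hcount x hx).mul_left 2)
  rw [neg_div]
  exact exp_le_F (div_pos (by linarith [hN i]) hx)

theorem Th_le (x : ℝ) (hx : 0 < x) : Th N x ≤ 4 * b * x := by
  have h1 : Th N x ≤ ∑' i, 2 * F (N i / x) := by
    refine (Th_summable hN hb hcount x hx).tsum_le_tsum (fun i => ?_)
      ((F_summable hN hb hcount x hx).mul_left 2)
    rw [neg_div]
    exact exp_le_F (div_pos (by linarith [hN i]) hx)
  rw [tsum_mul_left] at h1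
  have := F_tsum hN hb hcount x hx
  linarith

omit hN hb hcount in
theorem Th_nonneg (x : ℝ) : 0 ≤ Th N x := tsum_nonneg fun _ => (exp_pos _).le

theorem W_summable (x : ℝ) (hx : 0 < x) : Summable fun i => |log (N i / x)| * exp (-N i / x) := by
  refine Summable.of_nonneg_of_le (fun i => by positivity) (fun i => ?_)
    ((F_summable hN hb hcount x hx).mul_left 8)
  rw [neg_div]
  exact log_exp_le_F (div_pos (by linarith [hN i]) hx)

theorem W_le (x : ℝ) (hx : 0 < x) : ∑' i, |log (N i / x)| * exp (-N i / x) ≤ 16 * b * x := by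
  have h1 : ∑' i, |log (N i / x)| * exp (-N i / x) ≤ ∑' i, 8 * F (N i / x) := by
    refine (W_summable hN hb hcount x hx).tsum_le_tsum (fun i => ?_)
      ((F_summable hN hb hcount x hx).mul_left 8)
    rw [neg_div]
    exact log_exp_le_F (div_pos (by linarith [hN i]) hx)
  rw [tsum_mul_left] at h1
  have := F_tsum hN hb hcount x hx
  linarith

theorem Th_sq (x : ℝ) (hx : 0 < x) : Th N x ≤ 16 * b * x ^ 2 := by
  have h1 : Th N x ≤ ∑' i, exp (-(1 / (2 * x))) * exp (-N i / (2 * x)) := by
    refine (Th_summable hN hb hcount x hx).tsum_le_tsum (fun i => ?_)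
      ((Th_summable hN hb hcount (2 * x) (by positivity)).mul_left _)
    rw [← Real.exp_add, Real.exp_le_exp]
    have h2 := hN i
    have h3 : -(1 / (2 * x)) + -N i / (2 * x) = (-1 - N i) / (2 * x) := by ring
    have h4 : -N i / x = (-2 * N i) / (2 * x) := by field_simp
    rw [h3, h4]
    gcongr
    linarith
  rw [tsum_mul_left] at h1
  have h5 := Th_le hN hb hcount (2 * x) (by positivity)
  have h6 : exp (-(1 / (2 * x))) ≤ 2 * x := by
    rw [Real.exp_neg, inv_le_comm₀ (exp_pos _) (by positivity)]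
    have := Real.add_one_le_exp (1 / (2 * x))
    rw [inv_eq_one_div]
    linarith
  have h7 := Th_nonneg (N := N) (2 * x)
  calc Th N x ≤ exp (-(1 / (2 * x))) * Th N (2 * x) := h1
    _ ≤ (2 * x) * (4 * b * (2 * x)) := by
        gcongr
    _ = _ := by ring

theorem T_summable (x : ℝ) (hx : 0 < x) : Summable fun i => log (N i) * exp (-N i / x) := by
  have h1 := (Th_summable hN hb hcount x hx).mul_left |log x|
  have h2 := h1.add (W_summable hN hb hcount x hx)
  refine Summable.of_nonneg_of_le (fun i => ?_) (fun i => ?_) h2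
  · have := Real.log_nonneg (hN i)
    positivity
  · have h3 : log (N i) = log x + log (N i / x) := by
      rw [Real.log_div (by linarith [hN i]) hx.ne']
      ring
    rw [h3, ← add_mul]
    gcongr
    · exact le_abs_self _
    · exact le_abs_self _

theorem T_ge (x : ℝ) (hx : 0 < x) :
    log x * Th N x - ∑' i, |log (N i / x)| * exp (-N i / x) ≤ ∑' i, log (N i) * exp (-N i / x) := by
  unfold Th
  rw [← tsum_mul_left, ← ((Th_summable hN hb hcount x hx).mul_left _).tsum_sub
    (W_summable hN hb hcount x hx)]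
  refine (((Th_summable hN hb hcount x hx).mul_left _).sub
    (W_summable hN hb hcount x hx)).tsum_le_tsum (fun i => ?_) (T_summable hN hb hcount x hx)
  have h3 : log (N i) = log x + log (N i / x) := by
    rw [Real.log_div (by linarith [hN i]) hx.ne']
    ring
  rw [h3, ← sub_mul]
  gcongr
  have := neg_abs_le (log (N i / x))
  linarith

theorem T_le (x : ℝ) (hx : 0 < x) :
    ∑' i, log (N i) * exp (-N i / x) ≤ log x * Th N x + ∑' i, |log (N i / x)| * exp (-N i / x) := by
  unfold Th
  rw [← tsum_mul_left, ← ((Th_summable hN hb hcount x hx).mul_left _).tsum_add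
    (W_summable hN hb hcount x hx)]
  refine (T_summable hN hb hcount x hx).tsum_le_tsum (fun i => ?_)
    (((Th_summable hN hb hcount x hx).mul_left _).add (W_summable hN hb hcount x hx))
  have h3 : log (N i) = log x + log (N i / x) := by
    rw [Real.log_div (by linarith [hN i]) hx.ne']
    ring
  rw [h3, ← add_mul]
  gcongr
  exact le_abs_self _

theorem Th_ge (a : ℝ)
    (hlow : ∀ x : ℝ, 1 ≤ x → ∃ S : Finset ι, (∀ i ∈ S, N i ≤ x) ∧ a * x ≤ S.card)
    (x : ℝ) (hx : 1 ≤ x) : exp (-1) * a * x ≤ Th N x := by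
  obtain ⟨S, hS, hc⟩ := hlow x hx
  have h1 : ∑ i ∈ S, exp (-N i / x) ≤ Th N x :=
    (Th_summable hN hb hcount x (by linarith)).sum_le_tsum S (fun i _ => (exp_pos _).le)
  have h2 : ∑ i ∈ S, exp (-1) ≤ ∑ i ∈ S, exp (-N i / x) := by
    refine Finset.sum_le_sum fun i hi => ?_
    rw [Real.exp_le_exp, neg_div, neg_le_neg_iff, div_le_one (by linarith)]
    exact hS i hi
  rw [Finset.sum_const, nsmul_eq_mul] at h2
  have h3 : exp (-1) * (a * x) ≤ exp (-1) * S.card := mul_le_mul_of_nonneg_left hc (exp_pos _).le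
  linarith

/-- The two bounds for the defect. -/
theorem E_bounds (A δ C : ℝ) (hA : 1 ≤ A) (hδ : 0 < δ) (hδ1 : δ ≤ 1)
    (hrec : ∀ Z : ℝ, 1 ≤ Z → |Th N (A * Z) - A * Th N Z| ≤ C * Z ^ (1 - δ)) (y : ℝ) (hy : 0 < y) :
    |Th N y - A * Th N (y / A)| ≤ 32 * b * y ^ 2 ∧
    |Th N y - A * Th N (y / A)| ≤ (|C| + 8 * b * A) * y ^ (1 - δ) := by
  have hA0 : 0 < A := by linarith
  have h0 := Th_nonneg (N := N) y
  have h0' := Th_nonneg (N := N) (y / A)
  have hyA : 0 < y / A := by positivity
  have habs : |Th N y - A * Th N (y / A)| ≤ Th N y + A * Th N (y / A) := by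
    rw [abs_le]
    constructor <;> nlinarith [mul_nonneg hA0.le h0']
  constructor
  · have h1 := Th_sq hN hb hcount y hy
    have h2 := Th_sq hN hb hcount (y / A) hyA
    have h3 : A * Th N (y / A) ≤ 16 * b * y ^ 2 := by
      calc A * Th N (y / A) ≤ A * (16 * b * (y / A) ^ 2) := by gcongr
        _ = 16 * b * y ^ 2 / A := by field_simp
        _ ≤ 16 * b * y ^ 2 / 1 := by gcongr
        _ = _ := by ring
    linarith
  · rcases le_or_gt A y with h | h
    · have h1 := hrec (y / A) (by rwa [one_le_div hA0])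
      rw [mul_div_cancel₀ _ hA0.ne'] at h1
      refine h1.trans ?_
      have h2 : (y / A) ^ (1 - δ) ≤ y ^ (1 - δ) := by
        refine Real.rpow_le_rpow hyA.le (div_le_self hy.le hA) (by linarith)
      have h3 : 0 ≤ y ^ (1 - δ) := by positivity
      calc C * (y / A) ^ (1 - δ) ≤ |C| * (y / A) ^ (1 - δ) := by
            gcongr
            exact le_abs_self _
        _ ≤ |C| * y ^ (1 - δ) := by gcongr
        _ ≤ _ := by
            have : 0 ≤ 8 * b * A * y ^ (1 - δ) := by positivity
            linarith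
    · have h1 := Th_le hN hb hcount y hy
      have h2 := Th_le hN hb hcount (y / A) hyA
      have h3 : A * Th N (y / A) ≤ 4 * b * y := by
        calc A * Th N (y / A) ≤ A * (4 * b * (y / A)) := by gcongr
          _ = _ := by field_simp
      have h4 : y ≤ A * y ^ (1 - δ) := by
        have h5 : y = y ^ δ * y ^ (1 - δ) := by
          rw [← Real.rpow_add hy]
          simp
        have h6 : y ^ δ ≤ A := by
          calc y ^ δ ≤ A ^ δ := Real.rpow_le_rpow hy.le h.le hδ.le
            _ ≤ A ^ (1 : ℝ) := Real.rpow_le_rpow_of_exponent_le hA hδ1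
            _ = A := Real.rpow_one A
        calc y = y ^ δ * y ^ (1 - δ) := h5
          _ ≤ A * y ^ (1 - δ) := by gcongr
      have h5 : 0 ≤ |C| * y ^ (1 - δ) := by positivity
      calc |Th N y - A * Th N (y / A)| ≤ 8 * b * y := by linarith
        _ ≤ 8 * b * (A * y ^ (1 - δ)) := by gcongr
        _ ≤ _ := by linarith

/-- The lower bound for `T(x) - A T(x/A)`. -/
theorem T_lower (A δ C a : ℝ) (hA : 1 ≤ A) (hδ : 0 < δ) (hδ1 : δ ≤ 1)
    (hrec : ∀ Z : ℝ, 1 ≤ Z → |Th N (A * Z) - A * Th N Z| ≤ C * Z ^ (1 - δ))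
    (hlow : ∀ x : ℝ, 1 ≤ x → ∃ S : Finset ι, (∀ i ∈ S, N i ≤ x) ∧ a * x ≤ S.card)
    (hlogA : 32 * b + 2 ≤ exp (-1) * a * log A) :
    ∃ x₀ : ℝ, ∀ x : ℝ, x₀ ≤ x → x ≤ ∑' i, log (N i) * exp (-N i / x) -
      A * ∑' i, log (N i) * exp (-N i / (x / A)) := by
  have hA0 : 0 < A := by linarith
  set C' := |C| + 8 * b * A with hC'
  have hC0 : 0 < C' := by positivity
  have h1 : ∀ᶠ x : ℝ in Filter.atTop, ‖log x‖ ≤ 1 / C' * ‖x ^ δ‖ :=
    (isLittleO_log_rpow_atTop hδ).def (by positivity)
  obtain ⟨x₁, hx₁⟩ := Filter.eventually_atTop.1 h1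
  refine ⟨max x₁ A, fun x hx => ?_⟩
  have hxA : A ≤ x := (le_max_right _ _).trans hx
  have hx1 : 1 ≤ x := hA.trans hxA
  have hx0 : 0 < x := by linarith
  have h2 := hx₁ x ((le_max_left _ _).trans hx)
  have hlog : 0 ≤ log x := Real.log_nonneg hx1
  rw [Real.norm_of_nonneg hlog, Real.norm_of_nonneg (by positivity)] at h2
  have h3 := T_ge hN hb hcount x hx0
  have hxA0 : 0 < x / A := by positivity
  have h4 := T_le hN hb hcount (x / A) hxA0
  have h5 := W_le hN hb hcount x hx0
  have h6 := W_le hN hb hcount (x / A) hxA0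
  have h7 := (E_bounds hN hb hcount A δ C hA hδ hδ1 hrec x hx0).2
  have h8 := Th_ge hN hb hcount a hlow (x / A) (by rwa [one_le_div hA0])
  rw [← hC'] at h7
  have h9 : log (x / A) = log x - log A := Real.log_div hx0.ne' hA0.ne'
  rw [h9] at h4
  have hlA : 0 ≤ log A := Real.log_nonneg hA
  have h10 : -(C' * x ^ (1 - δ)) ≤ Th N x - A * Th N (x / A) := by
    have := neg_abs_le (Th N x - A * Th N (x / A))
    linarith
  have h11 : log x * (C' * x ^ (1 - δ)) ≤ x := by
    have e : x ^ δ * x ^ (1 - δ) = x := by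
      rw [← Real.rpow_add hx0]
      simp
    calc log x * (C' * x ^ (1 - δ)) ≤ (1 / C' * x ^ δ) * (C' * x ^ (1 - δ)) := by gcongr
      _ = x ^ δ * x ^ (1 - δ) := by field_simp
      _ = x := e
  have h12 : -x ≤ log x * (Th N x - A * Th N (x / A)) := by
    have := mul_le_mul_of_nonneg_left h10 hlog
    linarith
  have h13 : exp (-1) * a * log A * x ≤ A * log A * Th N (x / A) := by
    have := mul_le_mul_of_nonneg_left h8 (mul_nonneg hA0.le hlA)
    have e : A * log A * (exp (-1) * a * (x / A)) = exp (-1) * a * log A * x := by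
      field_simp
    linarith
  have h14 : (32 * b + 2) * x ≤ exp (-1) * a * log A * x := mul_le_mul_of_nonneg_right hlogA hx0.le
  have h15 : A * ∑' i, log (N i) * exp (-N i / (x / A)) ≤
      A * ((log x - log A) * Th N (x / A)) + A * (16 * b * (x / A)) := by
    rw [← mul_add]
    refine mul_le_mul_of_nonneg_left ?_ hA0.le
    linarith
  have h16 : A * (16 * b * (x / A)) = 16 * b * x := by field_simp
  have h17 : A * ((log x - log A) * Th N (x / A)) = log x * (A * Th N (x / A)) - A * log A * Th N (x / A) := by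
    ring
  rw [h16, h17] at h15
  have h18 : log x * (Th N x - A * Th N (x / A)) = log x * Th N x - log x * (A * Th N (x / A)) := by ring
  rw [h18] at h12
  linarith

end

/-- The partial sums of `L d m(d)^(δ-1)`. -/
theorem low_sum {D : Type} (L m : D → ℝ) (hL : ∀ d, 0 ≤ L d) (hm : ∀ d, 1 ≤ m d) (b : ℝ) (hb : 0 < b)
    (hψ : ∀ (S : Finset D) (x : ℝ), 0 < x → (∀ d ∈ S, m d ≤ x) → ∑ d ∈ S, L d ≤ b * x)
    (δ : ℝ) (hδ : 0 < δ) (hδ1 : δ ≤ 1) (S : Finset D) (y : ℝ) (hy : 0 < y) (hS : ∀ d ∈ S, m d ≤ y) :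
    ∑ d ∈ S, L d * (m d) ^ (-(1 - δ)) ≤ b / δ * y ^ δ := by
  have h1 := pot L m hL (fun d => by linarith [hm d]) b hb (fun u => u ^ (-(1 - δ)))
    (fun t => b / δ * (t / b) ^ δ) (by
      intro u v hu huv
      exact Real.rpow_le_rpow_of_nonpos hu huv (by linarith)) (by
      intro t t' ht htt
      have ht' : 0 < t' := lt_of_le_of_lt ht htt
      set u := t / b with hu
      set v := t' / b with hv
      have hv0 : 0 < v := by positivity
      have hu0 : 0 ≤ u := by positivity
      have huv : u < v := by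
        rw [hu, hv]
        gcongr
      have e1 : t = b * u := by rw [hu]; field_simp
      have e2 : t' = b * v := by rw [hv]; field_simp
      have e3 : v ^ (-(1 - δ)) = v ^ δ / v := by
        rw [show (-(1 - δ)) = δ - 1 by ring, Real.rpow_sub hv0, Real.rpow_one]
      have e4 : u ^ δ = (u / v) ^ δ * v ^ δ := by
        rw [← Real.mul_rpow (by positivity) hv0.le]
        congr 1
        field_simp
      have h2 : (u / v) ^ δ ≤ 1 + δ * (u / v - 1) := by
        have := rpow_one_add_le_one_add_mul_self (s := u / v - 1) (by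
          have : 0 ≤ u / v := by positivity
          linarith) hδ.le hδ1
        rwa [add_sub_cancel] at this
      have hvδ : 0 < v ^ δ := by positivity
      rw [e3, e4, e1, e2]
      have h3 : (b * v - b * u) * (v ^ δ / v) = b * v ^ δ * (1 - u / v) := by
        field_simp
      rw [h3]
      have h4 : b / δ * v ^ δ - b / δ * ((u / v) ^ δ * v ^ δ) = b / δ * v ^ δ * (1 - (u / v) ^ δ) := by ring
      rw [h4]
      have h5 : b * v ^ δ * (1 - u / v) = b / δ * v ^ δ * (δ * (1 - u / v)) := by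
        field_simp
      rw [h5]
      refine mul_le_mul_of_nonneg_left ?_ (by positivity)
      linarith) S (by
      intro U _ x hx
      rcases le_or_gt x 0 with h | h
      · exact Or.inr h
      · exact Or.inl (hψ U x h hx))
  have h2 : (∑ d ∈ S, L d) / b ≤ y := by
    rw [div_le_iff₀ hb]
    have := hψ S y hy hS
    linarith
  have h3 : 0 ≤ ∑ d ∈ S, L d := Finset.sum_nonneg fun d _ => hL d
  have h4 : (0 / b) ^ δ = 0 := by
    rw [zero_div, Real.zero_rpow hδ.ne']
  rw [h4, mul_zero, sub_zero] at h1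
  refine h1.trans ?_
  gcongr

/-- The sums of `L d / m(d)^2` over large `m d`. -/
theorem high_sum {D : Type} (L m : D → ℝ) (hL : ∀ d, 0 ≤ L d) (hm : ∀ d, 1 ≤ m d) (b : ℝ) (hb : 0 < b)
    (hψ : ∀ (S : Finset D) (x : ℝ), 0 < x → (∀ d ∈ S, m d ≤ x) → ∑ d ∈ S, L d ≤ b * x)
    (S : Finset D) (y : ℝ) (hy : 0 < y) (hS : ∀ d ∈ S, y ≤ m d) :
    ∑ d ∈ S, L d * (1 / (m d) ^ 2) ≤ 4 * b / y := by
  have h1 := pot L m hL (fun d => by linarith [hm d]) b hb (fun u => 1 / (max u 0 + y) ^ 2)
    (fun t => -(b / (max t 0 / b + y))) (by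
      intro u v hu huv
      refine one_div_le_one_div_of_le (by positivity) ?_
      gcongr) (by
      intro t t' ht htt
      have ht' : 0 < t' := lt_of_le_of_lt ht htt
      rw [max_eq_left ht, max_eq_left ht'.le, max_eq_left (by positivity : 0 ≤ t' / b)]
      set u := t / b with hu
      set v := t' / b with hv
      have hv0 : 0 < v := by positivity
      have hu0 : 0 ≤ u := by positivity
      have huv : u < v := by
        rw [hu, hv]
        gcongr
      have e1 : t = b * u := by rw [hu]; field_simp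
      have e2 : t' = b * v := by rw [hv]; field_simp
      have e3 : -(b / (v + y)) - -(b / (u + y)) = b * (v - u) / ((u + y) * (v + y)) := by
        field_simp
        ring
      rw [e3, e1, e2, ← mul_sub, mul_one_div]
      refine div_le_div_of_nonneg_left (mul_nonneg hb.le (by linarith)) (by positivity) ?_
      rw [sq]
      gcongr) S (by
      intro U _ x hx
      rcases le_or_gt x 0 with h | h
      · exact Or.inr h
      · exact Or.inl (hψ U x h hx))
  have h2 : ∑ d ∈ S, L d * (1 / (m d) ^ 2) ≤ 4 * ∑ d ∈ S, L d * (1 / (max (m d) 0 + y) ^ 2) := by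
    rw [Finset.mul_sum]
    refine Finset.sum_le_sum fun d hd => ?_
    have hm1 := hm d
    have hy1 := hS d hd
    rw [max_eq_left (by linarith)]
    have h3 : 1 / (m d) ^ 2 ≤ 4 * (1 / (m d + y) ^ 2) := by
      rw [mul_one_div, div_le_div_iff₀ (by positivity) (by positivity)]
      nlinarith
    calc L d * (1 / (m d) ^ 2) ≤ L d * (4 * (1 / (m d + y) ^ 2)) :=
          mul_le_mul_of_nonneg_left h3 (hL d)
      _ = _ := by ring
  have h3 : 0 ≤ ∑ d ∈ S, L d := Finset.sum_nonneg fun d _ => hL d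
  simp only [max_self, zero_div, zero_add] at h1
  have h4 : 0 ≤ b / (max (∑ d ∈ S, L d) 0 / b + y) := by positivity
  have h5 : 4 * b / y = 4 * (b / y) := by ring
  rw [h5]
  linarith

/-- Chebyshev's lower bound in the abstract system. -/
theorem core {ι D : Type} (N : ι → ℝ) (hN : ∀ i, 1 ≤ N i) (b : ℝ) (hb : 0 < b)
    (hcount : ∀ (S : Finset ι) (x : ℝ), 0 < x → (∀ i ∈ S, N i ≤ x) → (S.card : ℝ) ≤ b * x)
    (a : ℝ) (ha : 0 < a)
    (hlow : ∀ x : ℝ, 1 ≤ x → ∃ S : Finset ι, (∀ i ∈ S, N i ≤ x) ∧ a * x ≤ S.card)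
    (n : ℕ) (hn : 1 ≤ n) (δ : ℝ) (hδ : 0 < δ) (hδ1 : δ ≤ 1)
    (hrec : ∀ B : ℕ, 1 ≤ B → ∃ C : ℝ, ∀ Z : ℝ, 1 ≤ Z →
      |Th N ((B : ℝ) ^ n * Z) - (B : ℝ) ^ n * Th N Z| ≤ C * Z ^ (1 - δ))
    (L m : D → ℝ) (hL : ∀ d, 0 ≤ L d) (hm : ∀ d, 1 ≤ m d) (b' : ℝ) (hb' : 0 < b')
    (hψ : ∀ (S : Finset D) (x : ℝ), 0 < x → (∀ d ∈ S, m d ≤ x) → ∑ d ∈ S, L d ≤ b' * x)
    (hconv : ∀ x : ℝ, 0 < x → HasSum (fun d => L d * Th N (x / m d))
      (∑' i, log (N i) * exp (-N i / x))) :
    ∃ c B x₀ : ℝ, 0 < c ∧ 1 ≤ B ∧ ∀ x : ℝ, x₀ ≤ x → ∀ S : Finset D,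
      (∀ d, d ∈ S ↔ x / B < m d ∧ m d ≤ B * x) → c * x ≤ ∑ d ∈ S, L d := by
  classical
  -- choice of `A`
  obtain ⟨k, hk⟩ := exists_nat_ge ((32 * b + 2) / (exp (-1) * a * log 2))
  have hl2 : 0 < log 2 := Real.log_pos (by norm_num)
  have hk' : 32 * b + 2 ≤ exp (-1) * a * log 2 * k := by
    rw [div_le_iff₀ (by positivity)] at hk
    linarith
  set A : ℝ := ((2 ^ k : ℕ) : ℝ) ^ n with hAdef
  have hA1 : 1 ≤ A := by
    rw [hAdef]
    refine one_le_pow₀ ?_
    exact_mod_cast Nat.one_le_two_pow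
  have hlogA : 32 * b + 2 ≤ exp (-1) * a * log A := by
    have e : log A = n * (k * log 2) := by
      rw [hAdef, Real.log_pow]
      push_cast
      rw [Real.log_pow]
    rw [e]
    have h1 : (1 : ℝ) ≤ n := by exact_mod_cast hn
    calc 32 * b + 2 ≤ exp (-1) * a * log 2 * k := hk'
      _ = exp (-1) * a * (1 * (k * log 2)) := by ring
      _ ≤ exp (-1) * a * (n * (k * log 2)) := by gcongr
  obtain ⟨C, hC⟩ := hrec (2 ^ k) Nat.one_le_two_pow
  rw [← hAdef] at hC
  obtain ⟨x₁, hx₁⟩ := T_lower hN hb hcount A δ C a hA1 hδ hδ1 hC hlow hlogA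
  set C' := |C| + 8 * b * A with hC'
  have hC0 : 0 < C' := by positivity
  -- choice of `B`
  have h1 : Filter.Tendsto (fun B : ℝ => C' * b' / δ * B ^ (-δ) + 128 * b * b' * B⁻¹) Filter.atTop
      (nhds (C' * b' / δ * 0 + 128 * b * b' * 0)) :=
    ((tendsto_rpow_neg_atTop hδ).const_mul _).add (tendsto_inv_atTop_zero.const_mul _)
  rw [mul_zero, mul_zero, add_zero] at h1
  obtain ⟨B, hB, hB1⟩ := ((h1.eventually (gt_mem_nhds (show (0 : ℝ) < 1 / 2 by norm_num))).and
    (Filter.eventually_ge_atTop 1)).exists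
  have hB0 : 0 < B := by linarith
  refine ⟨1 / (2 * (C' * B ^ (1 - δ))), B, max x₁ 1, by positivity, hB1, ?_⟩
  intro x hx S hS
  have hx0 : 0 < x := lt_of_lt_of_le one_pos ((le_max_right _ _).trans hx)
  have hT := hx₁ x ((le_max_left _ _).trans hx)
  have hA0 : 0 < A := by linarith
  -- the upper bound
  have hs1 := (hconv x hx0).sub ((hconv (x / A) (by positivity)).mul_left A)
  have hup : ∑' i, log (N i) * exp (-N i / x) - A * ∑' i, log (N i) * exp (-N i / (x / A)) ≤
      (C' * b' / δ * B ^ (-δ) + 128 * b * b' * B⁻¹) * x + C' * B ^ (1 - δ) * ∑ d ∈ S, L d := by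
    refine hasSum_le_of_sum_le hs1 fun U => ?_
    have hE : ∀ d, L d * Th N (x / m d) - A * (L d * Th N (x / A / m d)) ≤ L d * (32 * b * (x / m d) ^ 2) ∧
        L d * Th N (x / m d) - A * (L d * Th N (x / A / m d)) ≤ L d * (C' * (x / m d) ^ (1 - δ)) := by
      intro d
      have hmd := hm d
      have h2 := E_bounds hN hb hcount A δ C hA1 hδ hδ1 hC (x / m d) (by positivity)
      have e : x / A / m d = x / m d / A := by
        rw [div_div, div_div, mul_comm]
      rw [e]
      have e2 : L d * Th N (x / m d) - A * (L d * Th N (x / m d / A)) =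
        L d * (Th N (x / m d) - A * Th N (x / m d / A)) := by ring
      rw [e2]
      exact ⟨mul_le_mul_of_nonneg_left ((le_abs_self _).trans h2.1) (hL d),
        mul_le_mul_of_nonneg_left ((le_abs_self _).trans h2.2) (hL d)⟩
    -- three ranges
    have hsplit : ∑ d ∈ U, (L d * Th N (x / m d) - A * (L d * Th N (x / A / m d))) ≤
        ∑ d ∈ U.filter (fun d => m d ≤ x / B), L d * (C' * (x / m d) ^ (1 - δ)) +
        ∑ d ∈ U.filter (fun d => B * x < m d), L d * (32 * b * (x / m d) ^ 2) +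
        C' * B ^ (1 - δ) * ∑ d ∈ S, L d := by
      have h3 : ∑ d ∈ U, (L d * Th N (x / m d) - A * (L d * Th N (x / A / m d))) ≤
          ∑ d ∈ U, ((if m d ≤ x / B then L d * (C' * (x / m d) ^ (1 - δ)) else 0) +
            (if B * x < m d then L d * (32 * b * (x / m d) ^ 2) else 0) +
            (if d ∈ S then C' * B ^ (1 - δ) * L d else 0)) := by
        refine Finset.sum_le_sum fun d _ => ?_
        have hmd := hm d
        have hLd := hL d
        by_cases h4 : m d ≤ x / B
        · rw [if_pos h4]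
          have h5 : 0 ≤ (if B * x < m d then L d * (32 * b * (x / m d) ^ 2) else 0) := by
            split_ifs
            · positivity
            · exact le_rfl
          have h6 : 0 ≤ (if d ∈ S then C' * B ^ (1 - δ) * L d else 0) := by
            split_ifs
            · positivity
            · exact le_rfl
          have := (hE d).2
          linarith
        · by_cases h5 : B * x < m d
          · rw [if_neg h4, if_pos h5]
            have h6 : 0 ≤ (if d ∈ S then C' * B ^ (1 - δ) * L d else 0) := by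
              split_ifs
              · positivity
              · exact le_rfl
            have := (hE d).1
            linarith
          · have h6 : d ∈ S := (hS d).2 ⟨not_le.1 h4, not_lt.1 h5⟩
            rw [if_neg h4, if_neg h5, if_pos h6, zero_add, zero_add]
            refine (hE d).2.trans ?_
            have h7 : x / m d ≤ B := by
              rw [div_le_iff₀ (by linarith)]
              have := not_le.1 h4
              rw [div_lt_iff₀ hB0] at this
              linarith
            have h8 : (x / m d) ^ (1 - δ) ≤ B ^ (1 - δ) :=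
              Real.rpow_le_rpow (by positivity) h7 (by linarith)
            calc L d * (C' * (x / m d) ^ (1 - δ)) ≤ L d * (C' * B ^ (1 - δ)) := by gcongr
              _ = _ := by ring
      refine h3.trans ?_
      rw [Finset.sum_add_distrib, Finset.sum_add_distrib, ← Finset.sum_filter, ← Finset.sum_filter]
      gcongr
      rw [← Finset.sum_filter, Finset.mul_sum]
      refine Finset.sum_le_sum_of_subset_of_nonneg ?_ ?_
      · intro d hd
        exact (Finset.mem_filter.1 hd).2
      · intro d _ _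
        have hLd := hL d
        positivity
    refine hsplit.trans ?_
    have hlo := low_sum L m hL hm b' hb' hψ δ hδ hδ1 (U.filter (fun d => m d ≤ x / B)) (x / B)
      (by positivity) (fun d hd => (Finset.mem_filter.1 hd).2)
    have hhi := high_sum L m hL hm b' hb' hψ (U.filter (fun d => B * x < m d)) (B * x)
      (by positivity) (fun d hd => (Finset.mem_filter.1 hd).2.le)
    have h4 : ∑ d ∈ U.filter (fun d => m d ≤ x / B), L d * (C' * (x / m d) ^ (1 - δ)) ≤
        C' * b' / δ * B ^ (-δ) * x := by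
      have e1 : ∑ d ∈ U.filter (fun d => m d ≤ x / B), L d * (C' * (x / m d) ^ (1 - δ)) =
          C' * x ^ (1 - δ) * ∑ d ∈ U.filter (fun d => m d ≤ x / B), L d * (m d) ^ (-(1 - δ)) := by
        rw [Finset.mul_sum]
        refine Finset.sum_congr rfl fun d _ => ?_
        have hmd := hm d
        rw [Real.div_rpow hx0.le (by linarith), Real.rpow_neg (by linarith)]
        field_simp
      rw [e1]
      have e2 : C' * b' / δ * B ^ (-δ) * x = C' * x ^ (1 - δ) * (b' / δ * (x / B) ^ δ) := by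
        rw [Real.div_rpow hx0.le hB0.le, Real.rpow_neg hB0.le]
        have e3 : x = x ^ (1 - δ) * x ^ δ := by
          rw [← Real.rpow_add hx0]
          simp
        calc C' * b' / δ * (B ^ δ)⁻¹ * x = C' * b' / δ * (B ^ δ)⁻¹ * (x ^ (1 - δ) * x ^ δ) := by
              rw [← e3]
          _ = _ := by ring
      rw [e2]
      gcongr
    have h5 : ∑ d ∈ U.filter (fun d => B * x < m d), L d * (32 * b * (x / m d) ^ 2) ≤
        128 * b * b' * B⁻¹ * x := by
      have e1 : ∑ d ∈ U.filter (fun d => B * x < m d), L d * (32 * b * (x / m d) ^ 2) =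
          32 * b * x ^ 2 * ∑ d ∈ U.filter (fun d => B * x < m d), L d * (1 / (m d) ^ 2) := by
        rw [Finset.mul_sum]
        refine Finset.sum_congr rfl fun d _ => ?_
        rw [div_pow]
        ring
      rw [e1]
      have e2 : 128 * b * b' * B⁻¹ * x = 32 * b * x ^ 2 * (4 * b' / (B * x)) := by
        field_simp
        ring
      rw [e2]
      gcongr
    linarith
  have h2 : x / 2 ≤ C' * B ^ (1 - δ) * ∑ d ∈ S, L d := by
    have h3 : (C' * b' / δ * B ^ (-δ) + 128 * b * b' * B⁻¹) * x ≤ 1 / 2 * x :=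
      mul_le_mul_of_nonneg_right hB.le hx0.le
    linarith
  have hCB : 0 < C' * B ^ (1 - δ) := by positivity
  rw [one_div_mul_eq_div, div_le_iff₀ (by positivity)]
  linarith

end Pool.Agent.Helper93.PPS
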