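import Pool.Agent.Helper77.PPS.GoalsN
import Pool.Agent.Helper88.RS.DG1
import Pool.Agent.Helper93.PPS.NCHL1

/-!
# Project PP (MP_fc6b1e_nt), part A3, packet N_CHL: the system of ideals of a number field
-/

set_option autoImplicit false

namespace Pool.Agent.Helper93.PPS

open NumberField Module IsDedekindDomain Pool.Agent.Helper77.PPS
open Pool.Agent.Helper88.RS (lp lp_prime sq_le_norm card_fibre lp_liesOver)
open scoped nonZeroDivisors ENNReal

section

variable {F : Type} [Field F] [NumberField F]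

/-- Nonzero ideals. -/
abbrev Jd (F : Type) [Field F] [NumberField F] : Type := {I : Ideal (𝓞 F) // I ≠ ⊥}

/-- The norm of an ideal as a real number. -/
noncomputable def nJ (J : Jd F) : ℝ := (Ideal.absNorm J.1 : ℝ)

theorem nJ_one (J : Jd F) : 1 ≤ nJ J := by
  unfold nJ
  have h : Ideal.absNorm J.1 ≠ 0 := by
    rw [Ne, Ideal.absNorm_eq_zero_iff]
    exact J.2
  exact_mod_cast Nat.one_le_iff_ne_zero.2 h

theorem nv_two (v : HeightOneSpectrum (𝓞 F)) : 2 ≤ nv v := by
  unfold nv
  have h0 : Ideal.absNorm v.asIdeal ≠ 0 := by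
    rw [Ne, Ideal.absNorm_eq_zero_iff]
    exact v.ne_bot
  have h1 : Ideal.absNorm v.asIdeal ≠ 1 := by
    intro h
    rw [Ideal.absNorm_eq_one_iff] at h
    exact v.isPrime.ne_top h
  omega

theorem finJ (x : ℝ) : {J : Jd F | nJ J ≤ x}.Finite := by
  rcases le_or_gt 0 x with hx | hx
  · have h1 : {I : Ideal (𝓞 F) | Ideal.absNorm I ≤ ⌊x⌋₊}.Finite :=
      Ideal.finite_setOfPred_absNorm_le ⌊x⌋₊
    refine Set.Finite.of_finite_image (f := Subtype.val) (h1.subset ?_) Subtype.val_injective.injOn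
    rintro _ ⟨J, hJ, rfl⟩
    exact Nat.le_floor hJ
  · have : {J : Jd F | nJ J ≤ x} = ∅ := by
      ext J
      simp only [Set.mem_ofPred_eq, Set.mem_empty_iff_false, iff_false, not_le]
      have := nJ_one J
      linarith
    rw [this]
    exact Set.finite_empty

/-- The equivalence of the two types of ideals of bounded norm. -/
noncomputable def eJ (x : ℝ) : {J : Jd F // nJ J ≤ x} ≃
    {I : (Ideal (𝓞 F))⁰ // Ideal.absNorm (I : Ideal (𝓞 F)) ≤ x} where
  toFun J := ⟨⟨J.1.1, mem_nonZeroDivisors_iff_ne_zero.2 J.1.2⟩, J.2⟩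
  invFun I := ⟨⟨I.1.1, mem_nonZeroDivisors_iff_ne_zero.1 I.1.2⟩, I.2⟩
  left_inv _ := rfl
  right_inv _ := rfl

theorem card_finJ (x : ℝ) : ((finJ (F := F) x).toFinset.card : ℝ) =
    (Nat.card {I : (Ideal (𝓞 F))⁰ // Ideal.absNorm (I : Ideal (𝓞 F)) ≤ x} : ℝ) := by
  rw [← Nat.card_congr (eJ (F := F) x)]
  have : Nat.card {J : Jd F // nJ J ≤ x} = (finJ (F := F) x).toFinset.card := by
    rw [← Nat.card_eq_card_finite_toFinset]
    rfl
  rw [this]

theorem counts (F : Type) [Field F] [NumberField F] : ∃ a b : ℝ, 0 < a ∧ 0 < b ∧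
    (∀ (S : Finset (Jd F)) (x : ℝ), 0 < x → (∀ i ∈ S, nJ i ≤ x) → (S.card : ℝ) ≤ b * x) ∧
    (∀ x : ℝ, 1 ≤ x → ∃ S : Finset (Jd F), (∀ i ∈ S, nJ i ≤ x) ∧ a * x ≤ S.card) := by
  have h1 := NumberField.Ideal.tendsto_norm_le_div_atTop₀ F
  set κ : ℝ := ((2 ^ InfinitePlace.nrRealPlaces F * (2 * Real.pi) ^ InfinitePlace.nrComplexPlaces F *
    Units.regulator F * classNumber F) / (Units.torsionOrder F * Real.sqrt |discr F|)) with hκ
  have hκ0 : 0 < κ := by
    have h2 : 0 < Units.regulator F := Units.regulator_pos F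
    have h3 : (0 : ℝ) < classNumber F := by
      exact_mod_cast Fintype.card_pos
    have h4 : (0 : ℝ) < Units.torsionOrder F := by
      exact_mod_cast Units.torsionOrder_pos F
    have h5 : (0 : ℝ) < |(discr F : ℝ)| := by
      rw [abs_pos]
      exact_mod_cast discr_ne_zero F
    have h6 : 0 < Real.sqrt |(discr F : ℝ)| := Real.sqrt_pos.2 h5
    have h7 := Real.pi_pos
    rw [hκ]
    positivity
  have h2 : ∀ᶠ s : ℝ in Filter.atTop, κ / 2 < (Nat.card {I : (Ideal (𝓞 F))⁰ //
      Ideal.absNorm (I : Ideal (𝓞 F)) ≤ s} : ℝ) / s := h1.eventually (lt_mem_nhds (by linarith))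
  have h3 : ∀ᶠ s : ℝ in Filter.atTop, (Nat.card {I : (Ideal (𝓞 F))⁰ //
      Ideal.absNorm (I : Ideal (𝓞 F)) ≤ s} : ℝ) / s < 2 * κ := h1.eventually (gt_mem_nhds (by linarith))
  obtain ⟨y, hy⟩ := Filter.eventually_atTop.1 (h2.and h3)
  set z : ℝ := max y 1 with hz
  have hz1 : 1 ≤ z := le_max_right _ _
  have hcard : ∀ s : ℝ, z ≤ s → κ / 2 * s < ((finJ (F := F) s).toFinset.card : ℝ) ∧
      ((finJ (F := F) s).toFinset.card : ℝ) < 2 * κ * s := by
    intro s hs
    have hs0 : 0 < s := by linarith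
    have h4 := hy s ((le_max_left _ _).trans hs)
    rw [← card_finJ, lt_div_iff₀ hs0, div_lt_iff₀ hs0] at h4
    exact h4
  have hmono : ∀ s t : ℝ, s ≤ t → ((finJ (F := F) s).toFinset.card : ℝ) ≤ (finJ (F := F) t).toFinset.card := by
    intro s t hst
    have : (finJ (F := F) s).toFinset ⊆ (finJ (F := F) t).toFinset := by
      intro J hJ
      rw [Set.Finite.mem_toFinset, Set.mem_ofPred_eq] at hJ ⊢
      exact hJ.trans hst
    exact_mod_cast Finset.card_le_card this
  refine ⟨min (κ / 2) (1 / z), 2 * κ * z, by positivity, by positivity, ?_, ?_⟩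
  · intro S x hx hS
    rcases lt_or_ge x 1 with h | h
    · have : S = ∅ := by
        rw [Finset.eq_empty_iff_forall_notMem]
        intro i hi
        have := hS i hi
        have := nJ_one i
        linarith
      rw [this]
      simp only [Finset.card_empty, Nat.cast_zero]
      positivity
    · have h4 : (S.card : ℝ) ≤ (finJ (F := F) x).toFinset.card := by
        have : S ⊆ (finJ (F := F) x).toFinset := by
          intro J hJ
          rw [Set.Finite.mem_toFinset]
          exact hS J hJ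
        exact_mod_cast Finset.card_le_card this
      refine h4.trans ?_
      rcases le_or_gt z x with h5 | h5
      · refine (hcard x h5).2.le.trans ?_
        have : 2 * κ * x * 1 ≤ 2 * κ * x * z := by gcongr
        linarith
      · refine (hmono x z h5.le).trans ((hcard z le_rfl).2.le.trans ?_)
        have : 2 * κ * z * 1 ≤ 2 * κ * z * x := by gcongr
        linarith
  · intro x hx
    refine ⟨(finJ (F := F) x).toFinset, fun i hi => by
      rw [Set.Finite.mem_toFinset] at hi
      exact hi, ?_⟩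
    rcases le_or_gt z x with h5 | h5
    · refine le_trans ?_ (hcard x h5).1.le
      gcongr
      exact min_le_left _ _
    · have h6 : (1 : ℝ) ≤ (finJ (F := F) x).toFinset.card := by
        have : 0 < (finJ (F := F) x).toFinset.card := by
          rw [Finset.card_pos]
          refine ⟨⟨⊤, by simp⟩, ?_⟩
          rw [Set.Finite.mem_toFinset, Set.mem_ofPred_eq]
          unfold nJ
          simpa using hx
        exact_mod_cast this
      refine le_trans ?_ h6
      calc min (κ / 2) (1 / z) * x ≤ 1 / z * z := by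
            gcongr
            exact min_le_right _ _
        _ = 1 := by field_simp

/-- The prime powers. -/
abbrev Dd (F : Type) [Field F] [NumberField F] : Type := HeightOneSpectrum (𝓞 F) × ℕ

/-- von Mangoldt. -/
noncomputable def Ld (d : Dd F) : ℝ := Real.log (nv d.1)

/-- The norm of a prime power. -/
noncomputable def md (d : Dd F) : ℝ := (nv d.1 : ℝ) ^ (d.2 + 1)

/-- The ideal. -/
noncomputable def Pd (d : Dd F) : Ideal (𝓞 F) := d.1.asIdeal ^ (d.2 + 1)

theorem Ld_nonneg (d : Dd F) : 0 ≤ Ld d := by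
  refine Real.log_nonneg ?_
  have := nv_two d.1
  exact_mod_cast (by omega : 1 ≤ nv d.1)

theorem md_ge_two (d : Dd F) : 2 ≤ md d := by
  have h := nv_two d.1
  have h1 : 2 ≤ nv d.1 ^ (d.2 + 1) := by
    calc 2 ≤ nv d.1 ^ 1 := by simpa using h
      _ ≤ nv d.1 ^ (d.2 + 1) := Nat.pow_le_pow_right (by omega) (by omega)
  unfold md
  exact_mod_cast h1

theorem Pd_ne (d : Dd F) : Pd d ≠ ⊥ := pow_ne_zero _ d.1.ne_bot

theorem norm_Pd (d : Dd F) : (Ideal.absNorm (Pd d) : ℝ) = md d := by
  unfold Pd md nv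
  rw [map_pow]
  push_cast
  rfl

/-- Divisibility by prime powers. -/
theorem pd_dvd (J : Jd F) (v : HeightOneSpectrum (𝓞 F)) (i : ℕ) [DecidableEq (Ideal (𝓞 F))] :
    Pd (v, i) ∣ J.1 ↔ i < (UniqueFactorizationMonoid.normalizedFactors J.1).count v.asIdeal := by
  have h1 : UniqueFactorizationMonoid.normalizedFactors (Pd (v, i)) = Multiset.replicate (i + 1) v.asIdeal := by
    unfold Pd
    rw [UniqueFactorizationMonoid.normalizedFactors_pow,
      UniqueFactorizationMonoid.normalizedFactors_irreducible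
        ((Ideal.prime_of_isPrime v.ne_bot v.isPrime).irreducible), normalize_eq,
      Multiset.nsmul_singleton]
  rw [UniqueFactorizationMonoid.dvd_iff_normalizedFactors_le_normalizedFactors
    (Pd_ne (v, i)) J.2, h1, ← Multiset.le_count_iff_replicate_le]
  omega

theorem log_prod (s : Multiset (Ideal (𝓞 F))) (hs : ∀ I ∈ s, I ≠ ⊥) :
    ENNReal.ofReal (Real.log (Ideal.absNorm s.prod)) =
      (s.map fun I => ENNReal.ofReal (Real.log (Ideal.absNorm I))).sum := by
  have hpos : ∀ I : Ideal (𝓞 F), I ≠ ⊥ → (1 : ℝ) ≤ Ideal.absNorm I := fun I hI => nJ_one ⟨I, hI⟩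
  revert hs
  refine Multiset.induction_on s ?_ ?_
  · intro _
    simp
  · intro I t ih hs
    have h1 : ∀ I ∈ t, I ≠ ⊥ := fun K hK => hs K (Multiset.mem_cons_of_mem hK)
    have h2 : t.prod ≠ ⊥ := by
      have : (0 : Ideal (𝓞 F)) ∉ t := fun h => h1 0 h rfl
      exact Multiset.prod_ne_zero this
    have h3 := hpos I (hs I (Multiset.mem_cons_self _ _))
    have h4 := hpos _ h2
    rw [Multiset.prod_cons, map_mul, Multiset.map_cons, Multiset.sum_cons, ← ih h1, Nat.cast_mul,
      Real.log_mul (by linarith) (by linarith),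
      ENNReal.ofReal_add (Real.log_nonneg h3) (Real.log_nonneg h4)]

open Classical in
/-- `∑_{d ∣ J} Λ(d) = log(N J)`. -/
theorem mangoldt (J : Jd F) :
    ∑' d : Dd F, (if Pd d ∣ J.1 then ENNReal.ofReal (Ld d) else 0) =
      ENNReal.ofReal (Real.log (nJ J)) := by
  set s := UniqueFactorizationMonoid.normalizedFactors J.1 with hs
  have hprod : s.prod = J.1 := Ideal.prod_normalizedFactors_eq_self J.2
  have hmem : ∀ I ∈ s, Prime I := fun I hI => UniqueFactorizationMonoid.prime_of_normalized_factor I hI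
  have h1 := log_prod s (fun I hI => (hmem I hI).ne_zero)
  rw [hprod, Finset.sum_multiset_map_count] at h1
  unfold nJ
  rw [h1]
  refine (ENNReal.tsum_prod (f := fun (v : HeightOneSpectrum (𝓞 F)) (i : ℕ) =>
    if Pd (v, i) ∣ J.1 then ENNReal.ofReal (Ld (v, i)) else 0)).trans ?_
  have h2 : ∀ v : HeightOneSpectrum (𝓞 F),
      ∑' i : ℕ, (if Pd (v, i) ∣ J.1 then ENNReal.ofReal (Ld (v, i)) else 0) =
      s.count v.asIdeal • ENNReal.ofReal (Real.log (Ideal.absNorm v.asIdeal)) := by
    intro v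
    have h3 : ∀ i, (if Pd (v, i) ∣ J.1 then ENNReal.ofReal (Ld (v, i)) else 0) =
        if i ∈ Finset.range (s.count v.asIdeal) then
          ENNReal.ofReal (Real.log (Ideal.absNorm v.asIdeal)) else 0 := by
      intro i
      have h4 := pd_dvd J v i
      rw [← hs] at h4
      by_cases h : Pd (v, i) ∣ J.1
      · rw [if_pos h, if_pos (Finset.mem_range.2 (h4.1 h))]
        rfl
      · rw [if_neg h, if_neg (fun h5 => h (h4.2 (Finset.mem_range.1 h5)))]
    simp_rw [h3]
    rw [tsum_eq_sum (s := Finset.range (s.count v.asIdeal)) (by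
      intro i hi
      rw [if_neg hi]), Finset.sum_ite_mem, Finset.inter_self, Finset.sum_const, Finset.card_range]
  simp_rw [h2]
  have h5 : ∑' v : HeightOneSpectrum (𝓞 F),
      s.count v.asIdeal • ENNReal.ofReal (Real.log (Ideal.absNorm v.asIdeal)) =
      ∑' I : Ideal (𝓞 F), s.count I • ENNReal.ofReal (Real.log (Ideal.absNorm I)) := by
    refine Function.Injective.tsum_eq (g := fun v : HeightOneSpectrum (𝓞 F) => v.asIdeal)
      (f := fun I => s.count I • ENNReal.ofReal (Real.log (Ideal.absNorm I)))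
      (fun v w h => HeightOneSpectrum.ext h) ?_
    intro I hI
    have h6 : I ∈ s := by
      by_contra h7
      apply hI
      change s.count I • _ = _
      rw [Multiset.count_eq_zero_of_notMem h7, zero_smul]
    exact ⟨⟨I, Ideal.isPrime_of_prime (hmem I h6), (hmem I h6).ne_zero⟩, rfl⟩
  rw [h5]
  refine tsum_eq_sum ?_
  intro I hI
  rw [Multiset.mem_toFinset] at hI
  rw [Multiset.count_eq_zero_of_notMem hI, zero_smul]

/-- The convolution identity in `[0, ∞]`. -/
theorem conv_enn (hS : ∀ x : ℝ, 0 < x → Summable fun J : Jd F => Real.exp (-nJ J / x))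
    (x : ℝ) (hx : 0 < x) :
    ∑' J : Jd F, ENNReal.ofReal (Real.log (nJ J) * Real.exp (-nJ J / x)) =
      ∑' d : Dd F, ENNReal.ofReal (Ld d * Th (nJ (F := F)) (x / md d)) := by
  classical
  have h1 : ∀ J : Jd F, ENNReal.ofReal (Real.log (nJ J) * Real.exp (-nJ J / x)) =
      ∑' d : Dd F, (if Pd d ∣ J.1 then ENNReal.ofReal (Ld d) else 0) *
        ENNReal.ofReal (Real.exp (-nJ J / x)) := by
    intro J
    rw [ENNReal.tsum_mul_right, mangoldt J, ENNReal.ofReal_mul (Real.log_nonneg (nJ_one J))]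
  simp_rw [h1]
  rw [ENNReal.tsum_comm]
  refine tsum_congr fun d => ?_
  have hm0 : 0 < md d := by linarith [md_ge_two d]
  have h2 : ∀ J : Jd F, (if Pd d ∣ J.1 then ENNReal.ofReal (Ld d) else 0) *
        ENNReal.ofReal (Real.exp (-nJ J / x)) = ENNReal.ofReal (Ld d) *
        (if Pd d ∣ J.1 then ENNReal.ofReal (Real.exp (-nJ J / x)) else 0) := by
    intro J
    split_ifs
    · rfl
    · simp
  simp_rw [h2]
  rw [ENNReal.tsum_mul_left, ENNReal.ofReal_mul (Ld_nonneg d)]
  congr 1
  have hinj : Function.Injective (fun J : Jd F => (⟨Pd d * J.1, mul_ne_zero (Pd_ne d) J.2⟩ : Jd F)) := by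
    intro J K h
    have h3 : Pd d * J.1 = Pd d * K.1 := congrArg Subtype.val h
    exact Subtype.ext (mul_left_cancel₀ (Pd_ne d) h3)
  have h4 := Function.Injective.tsum_eq hinj
    (f := fun J : Jd F => if Pd d ∣ J.1 then ENNReal.ofReal (Real.exp (-nJ J / x)) else 0) (by
      intro J hJ
      have h5 : Pd d ∣ J.1 := by
        by_contra h6
        apply hJ
        change (if Pd d ∣ J.1 then ENNReal.ofReal (Real.exp (-nJ J / x)) else 0) = 0
        rw [if_neg h6]
      obtain ⟨K, hK⟩ := h5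
      have hK0 : K ≠ ⊥ := by
        rintro rfl
        exact J.2 (by rw [hK]; simp)
      exact ⟨⟨K, hK0⟩, Subtype.ext hK.symm⟩)
  rw [← h4]
  unfold Th
  rw [ENNReal.ofReal_tsum_of_nonneg (fun J => (Real.exp_pos _).le) (hS (x / md d) (by positivity))]
  refine tsum_congr fun J => ?_
  simp only [dvd_mul_right, if_true]
  congr 2
  have h5 : nJ (⟨Pd d * J.1, mul_ne_zero (Pd_ne d) J.2⟩ : Jd F) = md d * nJ J := by
    unfold nJ
    rw [map_mul, Nat.cast_mul, norm_Pd]
  rw [h5]
  field_simp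

theorem conv (hS : ∀ x : ℝ, 0 < x → Summable fun J : Jd F => Real.exp (-nJ J / x))
    (hT : ∀ x : ℝ, 0 < x → Summable fun J : Jd F => Real.log (nJ J) * Real.exp (-nJ J / x))
    (x : ℝ) (hx : 0 < x) :
    HasSum (fun d : Dd F => Ld d * Th (nJ (F := F)) (x / md d))
      (∑' J : Jd F, Real.log (nJ J) * Real.exp (-nJ J / x)) := by
  have h1 := conv_enn hS x hx
  have h0 : ∀ J : Jd F, 0 ≤ Real.log (nJ J) * Real.exp (-nJ J / x) := fun J =>
    mul_nonneg (Real.log_nonneg (nJ_one J)) (Real.exp_pos _).le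
  have h0' : ∀ d : Dd F, 0 ≤ Ld d * Th (nJ (F := F)) (x / md d) := fun d =>
    mul_nonneg (Ld_nonneg d) (Th_nonneg _)
  rw [← ENNReal.ofReal_tsum_of_nonneg h0 (hT x hx)] at h1
  have h2 : ∑' d : Dd F, ENNReal.ofReal (Ld d * Th (nJ (F := F)) (x / md d)) ≠ ⊤ := by
    rw [← h1]
    exact ENNReal.ofReal_ne_top
  have h3 : Summable fun d : Dd F => Ld d * Th (nJ (F := F)) (x / md d) := by
    have := ENNReal.summable_toReal h2
    refine this.congr fun d => ?_
    rw [ENNReal.toReal_ofReal (h0' d)]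
  rw [← ENNReal.ofReal_tsum_of_nonneg h0' h3] at h1
  rw [ENNReal.ofReal_eq_ofReal_iff (tsum_nonneg h0) (tsum_nonneg h0')] at h1
  rw [h1]
  exact h3.hasSum

theorem lp_le (v : HeightOneSpectrum (𝓞 F)) : lp v ≤ nv v := by
  have := v.isPrime
  have := lp_liesOver v
  obtain ⟨f, hN⟩ : ∃ f : ℕ, Ideal.absNorm v.asIdeal = lp v ^ f :=
    ⟨_, Ideal.absNorm_eq_pow_inertiaDeg' v.asIdeal (lp_prime v)⟩
  have h2 := nv_two v
  unfold nv at h2 ⊢
  rw [hN] at h2 ⊢
  rcases Nat.eq_zero_or_pos f with h | h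
  · rw [h, pow_zero] at h2
    omega
  · exact Nat.le_self_pow h.ne' _

/-- The number of the prime powers which are not primes of prime norm. -/
theorem bad_card (S : Finset (Dd F)) (x : ℝ) (hx : 1 ≤ x) (hS : ∀ d ∈ S, md d ≤ x)
    (hbad : ∀ d ∈ S, ¬ (d.2 = 0 ∧ (nv d.1).Prime)) :
    (S.card : ℝ) ≤ finrank ℚ F * (√x * (Real.log x / Real.log 2)) := by
  classical
  have hl2 : 0 < Real.log 2 := Real.log_pos (by norm_num)
  have hlx : 0 ≤ Real.log x := Real.log_nonneg hx
  set f : Dd F → ℕ × ℕ := fun d => (lp d.1, d.2) with hf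
  set R := (Finset.Icc 1 ⌊√x⌋₊) ×ˢ (Finset.range ⌊Real.log x / Real.log 2⌋₊) with hR
  have h1 : ∀ d ∈ S, f d ∈ R := by
    intro d hd
    have hmd := hS d hd
    have hb := hbad d hd
    rw [hR, Finset.mem_product, Finset.mem_Icc, Finset.mem_range]
    have hlp := (lp_prime d.1).two_le
    have hsq : (lp d.1 : ℝ) ^ 2 ≤ x := by
      refine le_trans ?_ hmd
      unfold md
      have h2 : lp d.1 ^ 2 ≤ nv d.1 ^ (d.2 + 1) := by
        by_cases h3 : d.2 = 0
        · rw [h3, zero_add, pow_one]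
          exact sq_le_norm d.1 (fun h => hb ⟨h3, h⟩)
        · calc lp d.1 ^ 2 ≤ nv d.1 ^ 2 := Nat.pow_le_pow_left (lp_le d.1) 2
            _ ≤ nv d.1 ^ (d.2 + 1) := Nat.pow_le_pow_right (by have := nv_two d.1; omega) (by omega)
      exact_mod_cast h2
    refine ⟨⟨?_, ?_⟩, ?_⟩
    · change 1 ≤ lp d.1
      omega
    · refine Nat.le_floor ?_
      exact Real.le_sqrt_of_sq_le hsq
    · have h2 : ((d.2 + 1 : ℕ) : ℝ) ≤ Real.log x / Real.log 2 := by
        rw [le_div_iff₀ hl2]
        have h3 : (2 : ℝ) ^ (d.2 + 1) ≤ x := by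
          refine le_trans ?_ hmd
          unfold md
          have := nv_two d.1
          gcongr
          exact_mod_cast this
        have h4 := Real.log_le_log (by positivity) h3
        rw [Real.log_pow] at h4
        exact h4
      have h3 := Nat.le_floor h2
      change d.2 < _
      omega
  have h2 : ∀ y ∈ R, (S.filter (fun d => f d = y)).card ≤ finrank ℚ F := by
    intro y _
    have h3 : ((S.filter (fun d => f d = y)).image Prod.fst).card = (S.filter (fun d => f d = y)).card := by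
      refine Finset.card_image_of_injOn ?_
      intro d hd e he hde
      have h4 := (Finset.mem_filter.1 (Finset.mem_coe.1 hd)).2
      have h5 := (Finset.mem_filter.1 (Finset.mem_coe.1 he)).2
      refine Prod.ext hde ?_
      have h6 : d.2 = y.2 := congrArg Prod.snd h4
      have h7 : e.2 = y.2 := congrArg Prod.snd h5
      rw [h6, h7]
    rw [← h3]
    have h4 := card_fibre ((S.filter (fun d => f d = y)).image Prod.fst) y.1
    refine le_trans (Finset.card_le_card ?_) h4
    intro v hv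
    rw [Finset.mem_filter]
    refine ⟨hv, ?_⟩
    obtain ⟨d, hd, rfl⟩ := Finset.mem_image.1 hv
    have h5 := (Finset.mem_filter.1 hd).2
    exact congrArg Prod.fst h5
  have h3 : S.card ≤ finrank ℚ F * R.card := by
    rw [mul_comm]
    have := Finset.card_le_mul_card_image_of_maps_to h1 (finrank ℚ F) h2
    rwa [mul_comm] at this
  have h4 : (R.card : ℝ) ≤ √x * (Real.log x / Real.log 2) := by
    rw [hR, Finset.card_product, Nat.card_Icc, Finset.card_range, Nat.add_sub_cancel]
    push_cast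
    gcongr
    · exact Nat.floor_le (Real.sqrt_nonneg _)
    · exact Nat.floor_le (by positivity)
  calc (S.card : ℝ) ≤ finrank ℚ F * R.card := by exact_mod_cast h3
    _ ≤ _ := by gcongr

theorem bad_sum (S : Finset (Dd F)) (x : ℝ) (hx : 1 ≤ x) (hS : ∀ d ∈ S, md d ≤ x)
    (hbad : ∀ d ∈ S, ¬ (d.2 = 0 ∧ (nv d.1).Prime)) :
    ∑ d ∈ S, Ld d ≤ 64 * finrank ℚ F / Real.log 2 * x ^ (3 / 4 : ℝ) := by
  have hl2 : 0 < Real.log 2 := Real.log_pos (by norm_num)
  have hlx : 0 ≤ Real.log x := Real.log_nonneg hx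
  have hx0 : 0 < x := by linarith
  have h1 : ∀ d ∈ S, Ld d ≤ Real.log x := by
    intro d hd
    refine Real.log_le_log ?_ ?_
    · have := nv_two d.1
      exact_mod_cast (by omega : 0 < nv d.1)
    · refine le_trans ?_ (hS d hd)
      unfold md
      have h2 : nv d.1 ≤ nv d.1 ^ (d.2 + 1) := Nat.le_self_pow (by omega) _
      exact_mod_cast h2
  have h2 := Finset.sum_le_sum h1
  rw [Finset.sum_const, nsmul_eq_mul] at h2
  have h3 := bad_card S x hx hS hbad
  have h4 : Real.log x ≤ x ^ (1 / 8 : ℝ) / (1 / 8) := Real.log_le_rpow_div hx0.le (by norm_num)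
  have h5 : x ^ (3 / 4 : ℝ) = x ^ (1 / 2 : ℝ) * (x ^ (1 / 8 : ℝ) * x ^ (1 / 8 : ℝ)) := by
    rw [← Real.rpow_add hx0, ← Real.rpow_add hx0]
    norm_num
  rw [← Real.sqrt_eq_rpow] at h5
  rw [h5]
  calc ∑ d ∈ S, Ld d ≤ S.card * Real.log x := h2
    _ ≤ (finrank ℚ F * (√x * (Real.log x / Real.log 2))) * Real.log x := by gcongr
    _ = finrank ℚ F / Real.log 2 * √x * (Real.log x * Real.log x) := by ring
    _ ≤ finrank ℚ F / Real.log 2 * √x * ((x ^ (1 / 8 : ℝ) / (1 / 8)) * (x ^ (1 / 8 : ℝ) / (1 / 8))) := by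
        gcongr
    _ = _ := by ring

theorem psi_le {C : ℝ} (hP : PSys (nv (F := F)) C) :
    ∀ (S : Finset (Dd F)) (x : ℝ), 0 < x → (∀ d ∈ S, md d ≤ x) →
      ∑ d ∈ S, Ld d ≤ (|C| + 64 * finrank ℚ F / Real.log 2) * x := by
  classical
  intro S x hx hS
  have hl2 : 0 < Real.log 2 := Real.log_pos (by norm_num)
  rcases lt_or_ge x 1 with h | h
  · have : S = ∅ := by
      rw [Finset.eq_empty_iff_forall_notMem]
      intro d hd
      have := hS d hd
      have := md_ge_two d
      linarith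
    rw [this]
    simp only [Finset.sum_empty]
    positivity
  · rw [← Finset.sum_filter_add_sum_filter_not S (fun d => d.2 = 0 ∧ (nv d.1).Prime)]
    have h1 := bad_sum (S.filter (fun d => ¬ (d.2 = 0 ∧ (nv d.1).Prime))) x h
      (fun d hd => hS d (Finset.mem_filter.1 hd).1) (fun d hd => (Finset.mem_filter.1 hd).2)
    have h2 : x ^ (3 / 4 : ℝ) ≤ x := by
      calc x ^ (3 / 4 : ℝ) ≤ x ^ (1 : ℝ) := Real.rpow_le_rpow_of_exponent_le h (by norm_num)
        _ = x := Real.rpow_one x
    have h3 : 64 * finrank ℚ F / Real.log 2 * x ^ (3 / 4 : ℝ) ≤ 64 * finrank ℚ F / Real.log 2 * x := by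
      gcongr
    have h4 : ∑ d ∈ S.filter (fun d => d.2 = 0 ∧ (nv d.1).Prime), Ld d ≤ |C| * x := by
      have h5 : ∑ d ∈ S.filter (fun d => d.2 = 0 ∧ (nv d.1).Prime), Ld d =
          ∑ v ∈ (S.filter (fun d => d.2 = 0 ∧ (nv d.1).Prime)).image Prod.fst, Real.log (nv v) := by
        rw [Finset.sum_image]
        · rfl
        · intro d hd e he hde
          have h6 := (Finset.mem_filter.1 (Finset.mem_coe.1 hd)).2.1
          have h7 := (Finset.mem_filter.1 (Finset.mem_coe.1 he)).2.1
          exact Prod.ext hde (by rw [h6, h7])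
      rw [h5]
      refine (hP.cheb x _ h ?_).trans ?_
      · intro v hv
        obtain ⟨d, hd, rfl⟩ := Finset.mem_image.1 hv
        have h6 := (Finset.mem_filter.1 hd).2.1
        have h7 := hS d (Finset.mem_filter.1 hd).1
        unfold md at h7
        rw [h6, zero_add, pow_one] at h7
        exact h7
      · gcongr
        exact le_abs_self _
    rw [add_mul]
    linarith

end

/-- Packet PPS-N_CHL. -/
theorem n_chl (h1 : Pool.Agent.Helper77.PPS.N_REC) (h2 : Pool.Agent.Helper77.PPS.N_CHB) :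
    Pool.Agent.Helper77.PPS.N_CHL := by
  classical
  intro F _ _ _
  obtain ⟨C, hP⟩ := h2 F
  obtain ⟨a, b, ha, hb, hcount, hlow⟩ := counts F
  have hl2 : 0 < Real.log 2 := Real.log_pos (by norm_num)
  have hn : 1 ≤ finrank ℚ F := finrank_pos
  have hnR : (1 : ℝ) ≤ finrank ℚ F := by exact_mod_cast hn
  have hδ : 0 < 1 / (2 * (finrank ℚ F : ℝ)) := by positivity
  have hδ1 : 1 / (2 * (finrank ℚ F : ℝ)) ≤ 1 := by
    rw [div_le_one (by positivity)]
    linarith
  set b' : ℝ := |C| + 64 * finrank ℚ F / Real.log 2 with hb'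
  have hb'0 : 0 < b' := by positivity
  have hSum := fun (x : ℝ) (hx : 0 < x) => Th_summable (nJ_one (F := F)) hb hcount x hx
  have hTs := fun (x : ℝ) (hx : 0 < x) => T_summable (nJ_one (F := F)) hb hcount x hx
  obtain ⟨c, B, x₀, hc, hB, hmain⟩ := core (nJ (F := F)) nJ_one b hb hcount a ha hlow (finrank ℚ F) hn
    (1 / (2 * (finrank ℚ F : ℝ))) hδ hδ1 (fun B hB => by
      obtain ⟨C, hC⟩ := h1 F B hB
      exact ⟨C, fun Z hZ => (hC Z hZ).2⟩) (Ld (F := F)) md Ld_nonneg
    (fun d => by linarith [md_ge_two d]) b' hb'0 (psi_le hP) (conv hSum hTs)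
  have hB0 : 0 < B := by linarith
  set K : ℝ := 64 * finrank ℚ F / Real.log 2 with hK
  have hK0 : 0 < K := by positivity
  -- large `x`
  have h3 : ∃ y : ℝ, ∀ x : ℝ, y ≤ x → K * (B * x) ^ (3 / 4 : ℝ) ≤ c / 2 * x := by
    have h4 : Filter.Tendsto (fun x : ℝ => x ^ (1 / 4 : ℝ)) Filter.atTop Filter.atTop :=
      tendsto_rpow_atTop (by norm_num)
    obtain ⟨y, hy⟩ := Filter.eventually_atTop.1 (h4.eventually_ge_atTop (K * B ^ (3 / 4 : ℝ) * 2 / c))
    refine ⟨max y 1, fun x hx => ?_⟩
    have hx0 : 0 < x := lt_of_lt_of_le one_pos ((le_max_right _ _).trans hx)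
    have h5 := hy x ((le_max_left _ _).trans hx)
    rw [div_le_iff₀ hc] at h5
    have h6 : x = x ^ (3 / 4 : ℝ) * x ^ (1 / 4 : ℝ) := by
      rw [← Real.rpow_add hx0]
      norm_num
    rw [Real.mul_rpow hB0.le hx0.le]
    calc K * (B ^ (3 / 4 : ℝ) * x ^ (3 / 4 : ℝ)) = (K * B ^ (3 / 4 : ℝ) * 2) * x ^ (3 / 4 : ℝ) / 2 := by ring
      _ ≤ (x ^ (1 / 4 : ℝ) * c) * x ^ (3 / 4 : ℝ) / 2 := by gcongr
      _ = c / 2 * (x ^ (3 / 4 : ℝ) * x ^ (1 / 4 : ℝ)) := by ring
      _ = c / 2 * x := by rw [← h6]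
  obtain ⟨y, hy⟩ := h3
  refine ⟨c / 2, B, max (max x₀ y) 1, by positivity, hB, fun x hx => ?_⟩
  have hx1 : 1 ≤ x := (le_max_right _ _).trans hx
  have hx0 : 0 < x := by linarith
  have hBx : 1 ≤ B * x := by nlinarith
  -- the finite set of prime powers
  set I : ℕ := ⌊Real.log (B * x) / Real.log 2⌋₊ + 1 with hI
  set S : Finset (Dd F) := ((pr (nv (F := F)) (B * x)) ×ˢ (Finset.range I)).filter
    (fun d => x / B < md d ∧ md d ≤ B * x) with hS
  have hmem : ∀ d : Dd F, d ∈ S ↔ x / B < md d ∧ md d ≤ B * x := by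
    intro d
    rw [hS, Finset.mem_filter, Finset.mem_product, mem_pr hP, Finset.mem_range]
    constructor
    · exact fun h => h.2
    · intro h
      refine ⟨⟨?_, ?_⟩, h⟩
      · refine le_trans ?_ h.2
        unfold md
        have h2 : nv d.1 ≤ nv d.1 ^ (d.2 + 1) := Nat.le_self_pow (by omega) _
        exact_mod_cast h2
      · have h2 : ((d.2 + 1 : ℕ) : ℝ) ≤ Real.log (B * x) / Real.log 2 := by
          rw [le_div_iff₀ hl2]
          have h3 : (2 : ℝ) ^ (d.2 + 1) ≤ B * x := by
            refine le_trans ?_ h.2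
            unfold md
            have := nv_two d.1
            gcongr
            exact_mod_cast this
          have h4 := Real.log_le_log (by positivity) h3
          rw [Real.log_pow] at h4
          exact h4
        have h3 := Nat.le_floor h2
        omega
  have h4 := hmain x ((le_max_left _ _).trans ((le_max_left _ _).trans hx)) S hmem
  have h5 := hy x ((le_max_right _ _).trans ((le_max_left _ _).trans hx))
  rw [← Finset.sum_filter_add_sum_filter_not S (fun d => d.2 = 0 ∧ (nv d.1).Prime)] at h4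
  have h6 := bad_sum (S.filter (fun d => ¬ (d.2 = 0 ∧ (nv d.1).Prime))) (B * x) hBx
    (fun d hd => ((hmem d).1 (Finset.mem_filter.1 hd).1).2) (fun d hd => (Finset.mem_filter.1 hd).2)
  have h7 : ∑ d ∈ S.filter (fun d => d.2 = 0 ∧ (nv d.1).Prime), Ld d ≤
      ∑ q ∈ (pr (nv (F := F)) (B * x)).filter (fun q => x / B < nv q),
        ({v : HeightOneSpectrum (𝓞 F) | (nv v).Prime}.indicator fun _ => (1 : ℝ)) q * Real.log (nv q) := by
    have h8 : ∑ d ∈ S.filter (fun d => d.2 = 0 ∧ (nv d.1).Prime), Ld d =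
        ∑ v ∈ (S.filter (fun d => d.2 = 0 ∧ (nv d.1).Prime)).image Prod.fst,
          ({v : HeightOneSpectrum (𝓞 F) | (nv v).Prime}.indicator fun _ => (1 : ℝ)) v * Real.log (nv v) := by
      rw [Finset.sum_image]
      · refine Finset.sum_congr rfl fun d hd => ?_
        have h9 := (Finset.mem_filter.1 hd).2.2
        rw [Set.indicator_of_mem (show d.1 ∈ {v : HeightOneSpectrum (𝓞 F) | (nv v).Prime} from h9), one_mul]
        rfl
      · intro d hd e he hde
        have h6 := (Finset.mem_filter.1 (Finset.mem_coe.1 hd)).2.1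
        have h7 := (Finset.mem_filter.1 (Finset.mem_coe.1 he)).2.1
        exact Prod.ext hde (by rw [h6, h7])
    rw [h8]
    refine Finset.sum_le_sum_of_subset_of_nonneg ?_ ?_
    · intro v hv
      obtain ⟨d, hd, rfl⟩ := Finset.mem_image.1 hv
      have h9 := (Finset.mem_filter.1 hd).2
      have h10 := (hmem d).1 (Finset.mem_filter.1 hd).1
      unfold md at h10
      rw [h9.1, zero_add, pow_one] at h10
      rw [Finset.mem_filter, mem_pr hP]
      exact ⟨h10.2, h10.1⟩
    · intro v _ _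
      refine mul_nonneg ?_ ?_
      · exact Set.indicator_nonneg (fun _ _ => zero_le_one) _
      · refine Real.log_nonneg ?_
        have := nv_two v
        exact_mod_cast (by omega : 1 ≤ nv v)
  linarith

end Pool.Agent.Helper93.PPS
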